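import Mathlib
import Pool.Agent.H6.DefPosetR

set_option autoImplicit false

/-!
MP_b47165_lc: an infinite partial order all of whose order-preserving self-maps are definable
with parameters.
-/

namespace Pool.Agent.Results.MP_b47165_lc.AllDefinable

open Pool.Agent.H6.DefPoset

/-- There is an infinite partial order `P` such that the graph of every order-preserving map
`f : P → P` is definable with parameters from `P` by a first-order formula in the language
`{≤}`, interpreted in `P` by its order. -/
theorem result : ∃ (P : Type) (_ : PartialOrder P), Infinite P ∧
    ∀ f : P → P, Monotone f →
      @Set.Definable P Set.univ FirstOrder.Language.order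
        (FirstOrder.Language.orderStructure P) (Fin 2) {v : Fin 2 → P | f (v 0) = v 1} :=
  ⟨Pt, inferInstance, inferInstance, fun f hf => (d2_monotone f hf).toFin⟩

end Pool.Agent.Results.MP_b47165_lc.AllDefinable
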